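import Pool.Agent.H23.GZ.Targets5

/-!
Row BEU of the board gz (page H34_GZ.md, section 6): bounds for the Euler operator on the bump
functions.
-/

set_option autoImplicit false

namespace Pool.Agent.H25.GZ

open MeasureTheory Pool.Agent.H34.GM Pool.Agent.H34.GZ

theorem beu_dO {m : ℕ} (z : Mat m) (c : ℝ) :
    dO (c • z) = ∑ i, ∑ j, (c * c * (z.transpose * z) i j - (1 : Mat m) i j) ^ 2 := by
  unfold dO
  have h : (c • z).transpose * (c • z) = (c * c) • (z.transpose * z) := by
    rw [Matrix.transpose_smul, Matrix.smul_mul, Matrix.mul_smul, smul_smul]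
  rw [h]
  refine Finset.sum_congr rfl fun i _ => Finset.sum_congr rfl fun j _ => ?_
  rw [Matrix.sub_apply, Matrix.smul_apply, smul_eq_mul]

theorem beu_der {m : ℕ} (z : Mat m) : HasDerivAt (fun c : ℝ => dO (c • z))
    (∑ i, ∑ j, 2 * ((z.transpose * z) i j - (1 : Mat m) i j) * (2 * (z.transpose * z) i j))
    1 := by
  have h0 : (fun c : ℝ => dO (c • z)) = fun c : ℝ =>
      ∑ i, ∑ j, (c * c * (z.transpose * z) i j - (1 : Mat m) i j) ^ 2 := by
    funext c
    exact beu_dO z c
  rw [h0]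
  refine HasDerivAt.fun_sum fun i _ => HasDerivAt.fun_sum fun j _ => ?_
  have h1 : HasDerivAt (fun c : ℝ => c * c * (z.transpose * z) i j - (1 : Mat m) i j)
      (2 * (z.transpose * z) i j) 1 := by
    have h2 := (((hasDerivAt_id (1 : ℝ)).mul (hasDerivAt_id (1 : ℝ))).mul_const
      ((z.transpose * z) i j)).sub_const ((1 : Mat m) i j)
    refine h2.congr_deriv ?_
    simp only [id]
    ring
  have h3 := h1.pow 2
  refine h3.congr_deriv ?_
  norm_num

theorem beu_entry {m : ℕ} {z : Mat m} {δ : ℝ} (h0 : 0 < δ) (h1 : δ ≤ 1 / 2)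
    (hz : dO z ≤ δ ^ 2) (i j : Fin m) :
    |(z.transpose * z) i j - (1 : Mat m) i j| ≤ 1 / 2 := by
  have h2 : ((z.transpose * z - 1) i j) ^ 2 ≤ dO z := by
    unfold dO
    refine le_trans ?_ (Finset.single_le_sum
      (f := fun i => ∑ j, ((z.transpose * z - 1) i j) ^ 2)
      (fun i _ => Finset.sum_nonneg fun j _ => sq_nonneg _) (Finset.mem_univ i))
    exact Finset.single_le_sum (f := fun j => ((z.transpose * z - 1) i j) ^ 2)
      (fun j _ => sq_nonneg _) (Finset.mem_univ j)
  rw [Matrix.sub_apply] at h2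
  exact abs_le_of_sq_le_sq (by nlinarith) (by norm_num)

theorem beu_one {m : ℕ} (i j : Fin m) : |(1 : Mat m) i j| ≤ 1 := by
  rw [Matrix.one_apply]
  split_ifs <;> simp

theorem beu_sz {m : ℕ} {z : Mat m} {δ : ℝ} (h0 : 0 < δ) (h1 : δ ≤ 1 / 2)
    (hz : dO z ≤ δ ^ 2) : sz z ≤ 2 := by
  unfold sz
  rw [pi_norm_le_iff_of_nonneg (by norm_num)]
  intro i
  rw [pi_norm_le_iff_of_nonneg (by norm_num)]
  intro j
  rw [Real.norm_eq_abs]
  have h2 := beu_entry h0 h1 hz j j
  have h3 : z i j ^ 2 ≤ (z.transpose * z) j j := by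
    rw [Matrix.mul_apply]
    simp only [Matrix.transpose_apply]
    have h4 := Finset.single_le_sum (f := fun i => z i j * z i j)
      (fun i _ => mul_self_nonneg _) (Finset.mem_univ i)
    rw [sq]
    exact h4
  rw [Matrix.one_apply_eq, abs_le] at h2
  exact abs_le_of_sq_le_sq (by nlinarith) (by norm_num)

theorem pf_BEU : T_BMP → T_BEU := by
  intro hBMP m χ hm1 hχ
  obtain ⟨hB, -⟩ := hBMP m χ hm1 hχ
  have hcs : HasCompactSupport χ := by
    apply HasCompactSupport.of_support_subset_isCompact (isCompact_Icc (a := (-1 : ℝ)) (b := 1))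
    intro x hx
    by_contra h
    refine hx (hχ.supp x ?_)
    rw [Set.mem_Icc, not_and_or, not_le, not_le] at h
    rw [le_abs]
    rcases h with h | h
    · right
      linarith
    · left
      linarith
  have hdc : Continuous (deriv χ) := hχ.smooth.continuous_deriv (by
    exact_mod_cast (le_top : (1 : ℕ∞) ≤ ⊤))
  obtain ⟨M, hM⟩ := hcs.deriv.exists_bound_of_continuous hdc
  have hM0 : 0 ≤ M := (norm_nonneg _).trans (hM 0)
  have hdz : ∀ x, 1 < x → deriv χ x = 0 := by
    intro x hx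
    have h1 : χ =ᶠ[nhds x] fun _ => 0 := by
      filter_upwards [lt_mem_nhds hx] with y hy
      exact hχ.supp y (hy.le.trans (le_abs_self y))
    rw [h1.deriv_eq]
    simp
  refine ⟨M * (3 * (m : ℝ) ^ 2) + 1, 2, by positivity, ?_⟩
  intro δ h0 h1
  obtain ⟨hT, hs, hc, hn, hsu⟩ := hB δ h0 h1
  refine ⟨⟨hT, hs, hc⟩, fun z => ?_⟩
  have hδ2 : (0 : ℝ) < δ ^ 2 := by positivity
  have heu : eu (bump m χ δ) z = ((deriv χ (dO z / δ ^ 2) * ((∑ i, ∑ j,
      2 * ((z.transpose * z) i j - (1 : Mat m) i j) * (2 * (z.transpose * z) i j)) / δ ^ 2) :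
      ℝ) : ℂ) := by
    unfold eu
    have h2 : HasDerivAt (fun c : ℝ => χ (dO (c • z) / δ ^ 2))
        (deriv χ (dO z / δ ^ 2) * ((∑ i, ∑ j,
          2 * ((z.transpose * z) i j - (1 : Mat m) i j) * (2 * (z.transpose * z) i j)) /
            δ ^ 2)) 1 := by
      have h3 := (beu_der z).div_const (δ ^ 2)
      have h4 : HasDerivAt χ (deriv χ (dO z / δ ^ 2)) (dO ((1 : ℝ) • z) / δ ^ 2) := by
        rw [one_smul]
        exact (hχ.smooth.differentiable (by
          simp) _).hasDerivAt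
      exact HasDerivAt.comp (1 : ℝ) h4 h3
    exact h2.ofReal_comp.deriv
  have hzero : eu (bump m χ δ) z ≠ 0 → dO z ≤ δ ^ 2 := by
    intro h
    by_contra h2
    push Not at h2
    apply h
    rw [heu, hdz _ (by rw [lt_div_iff₀ hδ2]; linarith), zero_mul, Complex.ofReal_zero]
  refine ⟨hn z, ?_, hsu z, hzero, beu_sz h0 h1⟩
  by_cases h2 : eu (bump m χ δ) z = 0
  · rw [h2, norm_zero]
    positivity
  · have h3 := hzero h2
    rw [heu, Complex.norm_real, norm_mul, norm_div]
    have h4 : ‖∑ i, ∑ j, 2 * ((z.transpose * z) i j - (1 : Mat m) i j) *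
        (2 * (z.transpose * z) i j)‖ ≤ 3 * (m : ℝ) ^ 2 := by
      have h5 : ∀ i j : Fin m, ‖2 * ((z.transpose * z) i j - (1 : Mat m) i j) *
          (2 * (z.transpose * z) i j)‖ ≤ 3 := by
        intro i j
        have h6 := beu_entry h0 h1 h3 i j
        have h7 := beu_one i j
        have h8 : |(z.transpose * z) i j| ≤ 3 / 2 := by
          have h9 := abs_add_le ((z.transpose * z) i j - (1 : Mat m) i j) ((1 : Mat m) i j)
          rw [sub_add_cancel] at h9
          linarith
        rw [Real.norm_eq_abs, abs_mul, abs_mul, abs_mul, abs_two]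
        have h10 := abs_nonneg ((z.transpose * z) i j)
        have h11 := abs_nonneg ((z.transpose * z) i j - (1 : Mat m) i j)
        nlinarith
      calc _ ≤ ∑ i : Fin m, ∑ j : Fin m, (3 : ℝ) := by
            refine (norm_sum_le _ _).trans (Finset.sum_le_sum fun i _ => ?_)
            exact (norm_sum_le _ _).trans (Finset.sum_le_sum fun j _ => h5 i j)
        _ = 3 * (m : ℝ) ^ 2 := by
            simp only [Finset.sum_const, Finset.card_univ, Fintype.card_fin, nsmul_eq_mul]
            ring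
    have h5 : ‖δ ^ 2‖ = δ ^ 2 := by
      rw [Real.norm_eq_abs, abs_of_pos hδ2]
    rw [h5]
    have h6 := hM (dO z / δ ^ 2)
    calc ‖deriv χ (dO z / δ ^ 2)‖ * (_ / δ ^ 2) ≤ M * ((3 * (m : ℝ) ^ 2) / δ ^ 2) := by
          refine mul_le_mul h6 ?_ (by positivity) hM0
          gcongr
      _ = M * (3 * (m : ℝ) ^ 2) * δ⁻¹ ^ 2 := by
          rw [inv_pow]
          ring
      _ ≤ _ := by
          refine mul_le_mul_of_nonneg_right (by linarith) (by positivity)

end Pool.Agent.H25.GZ
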