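import Pool.Agent.H23.GZ.Targets5

/-!
Row THB of the board gz (page H34_GZ.md, section 6): the bounds at infinity for the differences of
the Fourier transforms.
-/

set_option autoImplicit false

namespace Pool.Agent.H25.GZ

open MeasureTheory Pool.Agent.H34.GM Pool.Agent.H34.GZ

/-- interpolation between two bounds -/
theorem thb_interp {a X P s θ : ℝ} (ha : 0 ≤ a) (hX : 0 ≤ X) (hP : 0 ≤ P) (hs : 0 ≤ s)
    (h0 : 0 < θ) (h1 : θ < 1) (hA : a ≤ X * P) (hB : a ≤ X * s) :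
    a ≤ X * (P ^ (1 - θ) * s ^ θ) := by
  have e1 : a = a ^ (1 - θ) * a ^ θ := by
    rw [← Real.rpow_add' ha (by norm_num)]
    norm_num
  have e2 : X = X ^ (1 - θ) * X ^ θ := by
    rw [← Real.rpow_add' hX (by norm_num)]
    norm_num
  calc a = a ^ (1 - θ) * a ^ θ := e1
    _ ≤ (X * P) ^ (1 - θ) * (X * s) ^ θ :=
        mul_le_mul (Real.rpow_le_rpow ha hA (by linarith)) (Real.rpow_le_rpow ha hB h0.le)
          (Real.rpow_nonneg ha _) (Real.rpow_nonneg (mul_nonneg hX hP) _)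
    _ = (X ^ (1 - θ) * X ^ θ) * (P ^ (1 - θ) * s ^ θ) := by
        rw [Real.mul_rpow hX hP, Real.mul_rpow hX hs]
        ring
    _ = X * (P ^ (1 - θ) * s ^ θ) := by rw [← e2]

theorem pf_THB : T_TAY → T_RPS → T_TDS → T_SHZ → T_SCP → T_THB := by
  intro hTAY hRPS hTDS hSHZ hSCP B hB m hm1 ε K1 hε hK1
  obtain ⟨Cs, Ns, hCs, hS⟩ := hSHZ m hm1 ε B K1 hε hB hK1
  have hm0 : (0 : ℝ) < m := by exact_mod_cast hm1
  obtain ⟨θ, hθ0, hθ1, hθB⟩ : ∃ θ : ℝ, 0 < θ ∧ θ ≤ 1 / 2 ∧ θ * B ≤ ε / (4 * m) := by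
    refine ⟨min (1 / 2) (ε / (4 * m * (B + 1))), by positivity, min_le_left _ _, ?_⟩
    have h1 : min (1 / 2) (ε / (4 * m * (B + 1))) * B ≤ ε / (4 * m * (B + 1)) * (B + 1) :=
      mul_le_mul (min_le_right _ _) (by linarith) hB (by positivity)
    refine h1.trans (le_of_eq ?_)
    field_simp
  obtain ⟨N0, hN0⟩ : ∃ N0 : ℕ, (Ns : ℝ) ≤ θ * N0 := by
    refine ⟨⌈(Ns : ℝ) / θ⌉₊, ?_⟩
    have h1 := Nat.le_ceil ((Ns : ℝ) / θ)
    rw [div_le_iff₀ hθ0] at h1
    linarith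
  choose CT hCT0 hCT using hTAY m
  choose CR hCR0 hCR using fun K => hRPS m K N0
  set P : Finset (Fin m → ℕ) := Fintype.piFinset fun _ : Fin m => Finset.range (⌊B⌋₊ + 1)
    with hPdef
  set C0 : ℝ := 1 + ∑ K ∈ P, (CT K + CR K) with hC0
  have hsum : 0 ≤ ∑ K ∈ P, (CT K + CR K) :=
    Finset.sum_nonneg fun K _ => add_nonneg (hCT0 K).le (hCR0 K).le
  have hC0p : 0 < C0 := by rw [hC0]; linarith
  refine ⟨Cs * C0, N0, mul_pos hCs hC0p, ?_⟩
  intro mu K φ M hmu hK hmuK hM hφ hφM hφs hcf hrap hdec r hr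
  have hKP : K ∈ P := by
    rw [hPdef, Fintype.mem_piFinset]
    intro j
    rw [Finset.mem_range, Nat.lt_succ_iff]
    exact Nat.le_floor (hK j).2
  have hle : CT K + CR K ≤ C0 := by
    have h1 : CT K + CR K ≤ ∑ K ∈ P, (CT K + CR K) :=
      Finset.single_le_sum (f := fun K => CT K + CR K)
        (fun K _ => add_nonneg (hCT0 K).le (hCR0 K).le) hKP
    rw [hC0]
    linarith
  have hcm : Measurable (fun z : V m => cf φ (mt z)) :=
    (hcf.comp (continuous_id : Continuous fun z : V m => mt z)).measurable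
  rw [(hTDS m hm1 mu hmu K (cf φ) hcm hrap r hr).1]
  have hsm : Measurable (fun z : V m => sK K (cf φ) (mt z)) := by
    unfold sK
    refine Finset.measurable_sum _ fun n _ => ?_
    refine measurable_const.mul ?_
    exact hcm.comp (hSCP m (fun j => (2 : ℝ) ^ n j) (fun j => by positivity)).2.2.2.2.2.1
  have hbd : ∀ z : Mat m, z.det ≠ 0 → ‖sK K (cf φ) z‖ ≤
      (C0 * M) * (∏ j, ‖oc z j‖ ^ ((1 - θ) * (K j : ℝ))) * (1 + sz z) ^ (-(Ns : ℝ)) := by
    intro z _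
    have hszn : 0 ≤ sz z := norm_nonneg _
    have hP0 : 0 ≤ ∏ j, ‖oc z j‖ ^ K j :=
      Finset.prod_nonneg fun j _ => pow_nonneg (norm_nonneg _) _
    have hs0 : 0 ≤ (1 + sz z) ^ (-(N0 : ℝ)) := Real.rpow_nonneg (by linarith) _
    have hA : ‖sK K (cf φ) z‖ ≤ (C0 * M) * ∏ j, ‖oc z j‖ ^ K j := by
      refine (hCT K φ M hφ hM hφM hφs z).trans ?_
      refine mul_le_mul_of_nonneg_right (mul_le_mul_of_nonneg_right ?_ hM) hP0
      linarith [hCR0 K]
    have hB' : ‖sK K (cf φ) z‖ ≤ (C0 * M) * (1 + sz z) ^ (-(N0 : ℝ)) := by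
      refine (hCR K (cf φ) M hM hdec z).trans ?_
      refine mul_le_mul_of_nonneg_right (mul_le_mul_of_nonneg_right ?_ hM) hs0
      linarith [hCT0 K]
    have hI := thb_interp (norm_nonneg _) (mul_nonneg hC0p.le hM) hP0 hs0 hθ0 (by linarith) hA hB'
    refine hI.trans ?_
    rw [mul_assoc (C0 * M)]
    refine mul_le_mul_of_nonneg_left ?_ (mul_nonneg hC0p.le hM)
    have e1 : (∏ j, ‖oc z j‖ ^ K j) ^ (1 - θ) = ∏ j, ‖oc z j‖ ^ ((1 - θ) * (K j : ℝ)) := by
      rw [← Real.finsetProd_rpow _ _ (fun j _ => pow_nonneg (norm_nonneg _) _)]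
      refine Finset.prod_congr rfl fun j _ => ?_
      rw [← Real.rpow_natCast, ← Real.rpow_mul (norm_nonneg _), mul_comm]
    have e2 : ((1 + sz z) ^ (-(N0 : ℝ))) ^ θ ≤ (1 + sz z) ^ (-(Ns : ℝ)) := by
      rw [← Real.rpow_mul (by linarith)]
      refine Real.rpow_le_rpow_of_exponent_le (by linarith) ?_
      linarith
    rw [e1]
    exact mul_le_mul_of_nonneg_left e2
      (Finset.prod_nonneg fun j _ => Real.rpow_nonneg (norm_nonneg _) _)
  have h1 := hS mu (fun j => (1 - θ) * (K j : ℝ)) (sK K (cf φ)) (C0 * M) hmu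
    (fun j => ⟨(hK j).1, mul_nonneg (by linarith) (Nat.cast_nonneg _), by
      have hKj : (0 : ℝ) ≤ K j := Nat.cast_nonneg _
      have := (hK j).2
      nlinarith⟩)
    (fun j => by
      have h2 := hmuK j
      have h3 : θ * (K j : ℝ) ≤ ε / (4 * m) :=
        (mul_le_mul_of_nonneg_left (hK j).2 hθ0.le).trans hθB
      have h4 : ε / (4 * (m : ℝ)) + ε / (4 * m) = ε / (2 * m) := by
        field_simp
        norm_num
      linarith)
    (mul_nonneg hC0p.le hM) hsm hbd r hr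
  have hmin : 0 ≤ min (r ^ K1) (r ^ ((m : ℝ) ^ 2 / 2 + ε)) :=
    le_min (pow_nonneg hr.le _) (Real.rpow_nonneg hr.le _)
  unfold th1
  refine (norm_integral_le_lintegral_norm _).trans ?_
  refine (ENNReal.toReal_mono ENNReal.ofReal_ne_top h1).trans (le_of_eq ?_)
  rw [ENNReal.toReal_ofReal (mul_nonneg (mul_nonneg hCs.le (mul_nonneg hC0p.le hM)) hmin)]
  ring

end Pool.Agent.H25.GZ
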