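import Pool.Agent.H18.GZ.Targets3
import Pool.Agent.H34.GM.TH1

/-!
Row VEZ of the board gz (page H34_GZ.md, section 6): the adjoint of the Gauss sum operator maps
forms to forms.
-/

set_option autoImplicit false

namespace Pool.Agent.H25.GZ

open MeasureTheory Pool.Agent.H34.GM Pool.Agent.H34.GZ

/-- the coefficients of `opVz` -/
theorem vez_co {m q : ℕ} [NeZero q] (x : RM m q) : ∃ c : RM m q → ℂ,
    (∀ f : RM m q → ℂ, opVz q f x = ∑ y, c y * f y) := by
  classical
  by_cases hx : IsUnit x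
  · refine ⟨fun y => (((q : ℝ) ^ (-((m : ℝ) ^ 2) / 2) : ℝ) : ℂ) *
      (if IsUnit y then (starRingEnd ℂ) (psq q (x * Ring.inverse y)) else 0), fun f => ?_⟩
    unfold opVz
    rw [if_pos hx, Finset.mul_sum]
    refine Finset.sum_congr rfl fun y _ => ?_
    beta_reduce
    by_cases hy : IsUnit y
    · rw [if_pos hy, if_pos hy, mul_assoc]
    · rw [if_neg hy, if_neg hy, mul_zero, zero_mul]
  · refine ⟨fun _ => 0, fun f => ?_⟩
    unfold opVz
    rw [if_neg hx]
    simp

/-- `opVz` of a finite sum -/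
theorem vez_sum {m q : ℕ} [NeZero q] {ι : Type} (s : Finset ι) (f : ι → RM m q → ℂ)
    (x : RM m q) : ∑ i ∈ s, opVz q (f i) x = opVz q (fun y => ∑ i ∈ s, f i y) x := by
  obtain ⟨c, hc⟩ := vez_co x
  simp only [hc, Finset.mul_sum]
  exact Finset.sum_comm

/-- `opVz` of a multiple -/
theorem vez_mul {m q : ℕ} [NeZero q] (a : ℂ) (f : RM m q → ℂ) (x : RM m q) :
    opVz q (fun y => a * f y) x = a * opVz q f x := by
  obtain ⟨c, hc⟩ := vez_co x
  rw [hc, hc, Finset.mul_sum]
  exact Finset.sum_congr rfl fun y _ => by ring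

/-- right multiplication by a number -/
theorem vez_mul' {m q : ℕ} [NeZero q] (a : ℂ) (f : RM m q → ℂ) (x : RM m q) :
    opVz q (fun y => f y * a) x = opVz q f x * a := by
  obtain ⟨c, hc⟩ := vez_co x
  rw [hc, hc, Finset.sum_mul]
  exact Finset.sum_congr rfl fun y _ => by ring

/-- the integrand in `arch` is integrable -/
theorem vez_int (hHAR : T_HAR) {m : ℕ} (hm1 : 1 ≤ m) {k : Mat m → ℂ} (hk : Tst m k)
    {f : Mat m → ℂ} (hf : ContinuousOn f {g | g.det ≠ 0}) {g : Mat m} (hg : g.det ≠ 0) :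
    Integrable (fun z : V m => k (mt z) * f (g * (mt z)⁻¹)) (hm m) := by
  obtain ⟨c, hc, hs⟩ := hk.supp
  have hK := th1K_compact m c
  have hfin : hm m (th1K m c) ≠ ⊤ := ((hHAR m hm1).2.2.2 c hc).ne
  have h1 : ContinuousOn (fun z : V m => k (mt z) * f (g * (mt z)⁻¹)) (th1K m c) := by
    refine ContinuousOn.mul (hk.cont.comp th1_cmt).continuousOn ?_
    have h2 : ContinuousOn (fun z : V m => g * (mt z)⁻¹) (th1K m c) := by
      intro z hz
      have hd : (mt z).det ≠ 0 := th1K_sub hc hz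
      have h3 : ContinuousAt (fun z : Mat m => z⁻¹) (mt z) := by
        apply continuousAt_matrix_inv
        rw [Ring.inverse_eq_inv']
        exact continuousAt_inv₀ hd
      have h4 : ContinuousAt (fun z : V m => (mt z)⁻¹) z :=
        ContinuousAt.comp (g := fun z : Mat m => z⁻¹) (f := fun z : V m => mt z) h3
          th1_cmt.continuousAt
      have h5 : Continuous (fun w : Mat m => g * w) := by fun_prop
      exact (h5.continuousAt.comp h4).continuousWithinAt
    refine hf.comp h2 fun z hz => ?_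
    have hd : (mt z).det ≠ 0 := th1K_sub hc hz
    show (g * (mt z)⁻¹).det ≠ 0
    rw [Matrix.det_mul, Matrix.det_nonsing_inv, Ring.inverse_eq_inv']
    exact mul_ne_zero hg (inv_ne_zero hd)
  obtain ⟨M, hM⟩ := hK.exists_bound_of_continuousOn h1
  have h6 : IntegrableOn (fun z : V m => k (mt z) * f (g * (mt z)⁻¹)) (th1K m c) (hm m) := by
    have h8 : IntegrableOn (fun _ : V m => M) (th1K m c) (hm m) := integrableOn_const hfin
    refine Integrable.mono' h8 (h1.aestronglyMeasurable_of_isCompact hK hK.measurableSet) ?_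
    exact (ae_restrict_iff' hK.measurableSet).2 (Filter.Eventually.of_forall hM)
  refine (integrableOn_iff_integrable_of_support_subset ?_).1 h6
  intro z hz
  have h7 : k (mt z) ≠ 0 := fun h => hz (by
    show k (mt z) * _ = 0
    rw [h, zero_mul])
  exact hs _ h7

theorem pf_VEZ (hVCT : T_VCT) (hALZ : T_ALZ) (hHAR : T_HAR) : T_VEZ := by
  intro m q _ T hm1 hq hT F lam mu hF
  obtain ⟨-, hV2, hV3, -⟩ := hVCT m q hm1 hq
  obtain ⟨⟨-, hA1⟩, -, -, hA2, hA3, -, -⟩ := hALZ m q hm1 hq
  refine ⟨?_, ?_, ?_, ?_, ?_, ?_, hF.tr0, ?_, ?_⟩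
  · intro x
    obtain ⟨c, hc⟩ := vez_co x
    simp only [hc]
    exact continuousOn_finsetSum _ fun y _ => continuousOn_const.mul (hF.cont y)
  · intro g x hx
    exact hV3 _ x hx
  · intro γ hγ g x hg
    have hu : IsUnit (cQ q γ) := by
      rw [hA2, (hA3 γ).1 hγ]
      exact Nat.coprime_one_left q
    show opVz q (F (cR γ * g)) (cQ q γ * x) = opVz q (F g) x
    rw [← hV2 (F (cR γ * g)) (cQ q γ) x hu]
    congr 1
    funext y
    exact hF.auto γ hγ g y hg
  · intro r hr g x hg
    show opVz q (F (r • g)) x = opVz q (F g) x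
    congr 1
    funext y
    exact hF.scal r hr g y hg
  · intro k hk g x hg
    show opVz q (F (g * k)) x = opVz q (F g) x
    congr 1
    funext y
    exact hF.orth k hk g y hg
  · intro n hn hnq g x hg
    show ∑ α ∈ T n, opVz q (F (cR α * g)) (cQ q α * x) = _ * opVz q (F g) x
    have h1 : ∀ α ∈ T n, opVz q (F (cR α * g)) (cQ q α * x) =
        opVz q (fun y => F (cR α * g) (cQ q α * y)) x := by
      intro α hα
      have hu : IsUnit (cQ q α) := by
        rw [hA2, hT.mem n hn α hα]
        exact hnq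
      exact (hV2 (F (cR α * g)) (cQ q α) x hu).symm
    rw [Finset.sum_congr rfl h1, vez_sum, ← vez_mul]
    congr 1
    funext y
    exact hF.hecke n hn hnq g y hg
  · intro k hk g x hg
    show ∫ z, k (mt z) * opVz q (F (g * (mt z)⁻¹)) x ∂(hm m) = opVz q (F g) x * _
    obtain ⟨c, hc⟩ := vez_co x
    rw [← vez_mul']
    rw [hc]
    have h1 : ∀ z : V m, k (mt z) * opVz q (F (g * (mt z)⁻¹)) x =
        ∑ y, c y * (k (mt z) * F (g * (mt z)⁻¹) y) := by
      intro z
      rw [hc, Finset.mul_sum]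
      exact Finset.sum_congr rfl fun y _ => by ring
    rw [integral_congr_ae (Filter.Eventually.of_forall h1), integral_finsetSum]
    · refine Finset.sum_congr rfl fun y _ => ?_
      rw [integral_const_mul, hF.arch k hk g y hg]
    · intro y _
      exact (vez_int hHAR hm1 hk (hF.cont y) hg).const_mul _
  · obtain ⟨B, hB⟩ := hF.bdd
    choose c hc using fun x : RM m q => vez_co x
    refine ⟨∑ x, ∑ y, ‖c x y‖ * |B|, fun g x hg => ?_⟩
    show ‖opVz q (F g) x‖ ≤ _
    rw [hc x]
    refine (norm_sum_le _ _).trans ?_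
    refine le_trans ?_ (Finset.single_le_sum (f := fun x => ∑ y, ‖c x y‖ * |B|)
      (fun i _ => Finset.sum_nonneg fun y _ => mul_nonneg (norm_nonneg _) (abs_nonneg _))
      (Finset.mem_univ x))
    refine Finset.sum_le_sum fun y _ => ?_
    rw [norm_mul]
    exact mul_le_mul_of_nonneg_left ((hB g y hg).trans (le_abs_self B)) (norm_nonneg _)

end Pool.Agent.H25.GZ
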